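import Mathlib
import Pool.Agent.H6.EHMOrd

set_option autoImplicit false

/-!
MP_46bbfb_lc: under CH there is a graph on `ω₁ ^ (ω + 2)` with no infinite path, all of whose
independent sets have order type strictly less than `ω₁ ^ (ω + 2)`.
-/

namespace Pool.Agent.Results.MP_46bbfb_lc.CHFails

open Ordinal Cardinal

/-- The continuum hypothesis implies that some graph `G` on the ordinal `ω₁ ^ (ω + 2)` (vertex
set: the ordinals below it) has no infinite path, while every independent set of `G` has order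
type strictly less than `ω₁ ^ (ω + 2)`. -/
theorem result (CH : Cardinal.continuum.{0} = Cardinal.aleph 1) :
    ∃ G : SimpleGraph (Set.Iio (ω₁ ^ (ω + 2) : Ordinal.{0})),
      (¬ ∃ v : ℕ → Set.Iio (ω₁ ^ (ω + 2) : Ordinal.{0}),
        Function.Injective v ∧ ∀ n, G.Adj (v n) (v (n + 1))) ∧
      (∀ S : Set (Set.Iio (ω₁ ^ (ω + 2) : Ordinal.{0})),
        (∀ x ∈ S, ∀ y ∈ S, ¬ G.Adj x y) →
          Ordinal.type (fun a b : S => a < b) < Ordinal.lift.{1} (ω₁ ^ (ω + 2) : Ordinal.{0})) := by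
  by_contra hcon
  push Not at hcon
  apply H6.EHM.main_omega CH
  intro G
  by_cases h : ∃ f : ℕ → Set.Iio (ω₁ ^ (ω + 2) : Ordinal.{0}),
      Function.Injective f ∧ ∀ n, G.Adj (f n) (f (n + 1))
  · exact Or.inl h
  · right
    push Not at h
    obtain ⟨S, hS, hle⟩ := hcon G h
    refine ⟨S, hS, ?_⟩
    have h1 : Ordinal.type (fun a b : Set.Iio (ω₁ ^ (ω + 2) : Ordinal.{0}) => a < b)
        = Ordinal.lift.{1} (ω₁ ^ (ω + 2) : Ordinal.{0}) := by
      rw [← Ordinal.typein_ordinal, ← Ordinal.type_Iio_lt]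
    have h2 : Ordinal.type (fun a b : S => a < b)
        ≤ Ordinal.type (fun a b : Set.Iio (ω₁ ^ (ω + 2) : Ordinal.{0}) => a < b) := by
      rw [Ordinal.type_le_iff']
      exact ⟨⟨⟨Subtype.val, Subtype.val_injective⟩, Iff.rfl⟩⟩
    have h3 := le_antisymm h2 (h1 ▸ hle)
    rw [Ordinal.type_eq] at h3
    obtain ⟨e⟩ := h3
    exact ⟨OrderIso.ofRelIsoLT e⟩

end Pool.Agent.Results.MP_46bbfb_lc.CHFails
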